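import Pool.Agent.H6.FC.Targets
import Pool.Agent.H36.FIB.PBJ

/-!
# MP_7500ea_al, board cfp_modules: CP2, the characters of a central product
-/

set_option autoImplicit false
set_option linter.unusedSectionVars false

open scoped Classical ComplexConjugate

namespace Pool.Agent.H36.FC

open FI AMc AMt
open Pool.Agent.H55.FI (central_val cp eq_of_prop Ab_finite)
open Pool.Agent.H36.FIB (cq_supp deg_ne)

section

variable {Γ : Type} [Group Γ] [Fintype Γ]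

/-- a central product of `M` and `C` -/
structure CQe (Z M C : Subgroup Γ) : Prop where
  inf : M ⊓ C = Z
  com : ∀ m ∈ M, ∀ c ∈ C, m * c = c * m

variable {Z M C : Subgroup Γ}

theorem CQe.leM (h : CQe Z M C) : Z ≤ M := h.inf ▸ inf_le_left

theorem CQe.leC (h : CQe Z M C) : Z ≤ C := h.inf ▸ inf_le_right

theorem CQe.cenM (h : CQe Z M C) : ∀ z ∈ Z, ∀ g ∈ M, z * g = g * z :=
  fun z hz g hg => (h.com g hg z (h.leC hz)).symm

theorem CQe.cenC (h : CQe Z M C) : ∀ z ∈ Z, ∀ g ∈ C, z * g = g * z :=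
  fun z hz g hg => h.com z (h.leM hz) g hg

theorem CQe.ex (h : CQe Z M C) {g : Γ} (hg : g ∈ M ⊔ C) : ∃ m ∈ M, ∃ c ∈ C, m * c = g := by
  let P : Subgroup Γ :=
    { carrier := {g | ∃ m ∈ M, ∃ c ∈ C, m * c = g}
      mul_mem' := by
        rintro a b ⟨m, hm, c, hc, rfl⟩ ⟨m', hm', c', hc', rfl⟩
        refine ⟨m * m', M.mul_mem hm hm', c * c', C.mul_mem hc hc', ?_⟩
        rw [mul_assoc m m', ← mul_assoc m' c, h.com m' hm' c hc]
        group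
      one_mem' := ⟨1, M.one_mem, 1, C.one_mem, mul_one 1⟩
      inv_mem' := by
        rintro a ⟨m, hm, c, hc, rfl⟩
        refine ⟨m⁻¹, M.inv_mem hm, c⁻¹, C.inv_mem hc, ?_⟩
        rw [mul_inv_rev, h.com _ (M.inv_mem hm) _ (C.inv_mem hc)] }
  have h1 : M ⊔ C ≤ P := sup_le (fun m hm => ⟨m, hm, 1, C.one_mem, mul_one m⟩)
    (fun c hc => ⟨1, M.one_mem, c, hc, one_mul c⟩)
  exact h1 hg

theorem CQe.cen (h : CQe Z M C) : ∀ z ∈ Z, ∀ g ∈ M ⊔ C, z * g = g * z := by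
  intro z hz g hg
  obtain ⟨m, hm, c, hc, rfl⟩ := h.ex hg
  rw [← mul_assoc, h.cenM z hz m hm, mul_assoc, h.cenC z hz c hc, mul_assoc]

/-- the multiplication map -/
def CQe.mu (h : CQe Z M C) : M × C →* (M ⊔ C : Subgroup Γ) :=
  MonoidHom.mk' (fun p => ⟨(p.1 : Γ) * (p.2 : Γ),
    (M ⊔ C).mul_mem (Subgroup.mem_sup_left p.1.2) (Subgroup.mem_sup_right p.2.2)⟩) (by
    rintro ⟨a, b⟩ ⟨a', b'⟩
    apply Subtype.ext
    change ((a * a' : M) : Γ) * ((b * b' : C) : Γ) = (a : Γ) * b * ((a' : Γ) * b')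
    rw [Subgroup.coe_mul, Subgroup.coe_mul, mul_assoc (a : Γ) a', ← mul_assoc (a' : Γ) b,
      h.com a' a'.2 b b.2]
    group)

theorem CQe.mu_surj (h : CQe Z M C) : Function.Surjective h.mu := by
  rintro ⟨g, hg⟩
  obtain ⟨m, hm, c, hc, rfl⟩ := h.ex hg
  exact ⟨(⟨m, hm⟩, ⟨c, hc⟩), rfl⟩

theorem CQe.ker_card (h : CQe Z M C) : Nat.card h.mu.ker = Nat.card Z := by
  apply Nat.card_congr
  refine ⟨fun p => ⟨(p.1.1 : Γ), ?_⟩, fun z => ⟨(⟨(z : Γ), h.leM z.2⟩,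
    ⟨(z : Γ)⁻¹, C.inv_mem (h.leC z.2)⟩), ?_⟩, ?_, ?_⟩
  · have e : (p.1.1 : Γ) * (p.1.2 : Γ) = 1 := congrArg Subtype.val p.2
    have h1 : (p.1.1 : Γ) ∈ M ⊓ C := by
      refine ⟨p.1.1.2, ?_⟩
      rw [eq_inv_of_mul_eq_one_left e]
      exact C.inv_mem p.1.2.2
    exact h.inf.le h1
  · apply Subtype.ext
    exact mul_inv_cancel _
  · rintro ⟨⟨a, b⟩, hab⟩
    have e : (a : Γ) * (b : Γ) = 1 := congrArg Subtype.val hab
    apply Subtype.ext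
    apply Prod.ext
    · rfl
    · apply Subtype.ext
      exact (eq_inv_of_mul_eq_one_right e).symm
  · intro z
    rfl

theorem card_rel {A B : Subgroup Γ} (h : A ≤ B) :
    Nat.card A * A.relIndex B = Nat.card B := by
  rw [← Subgroup.relIndex_bot_left A, ← Subgroup.relIndex_bot_left B]
  exact Subgroup.relIndex_mul_relIndex ⊥ A B bot_le h

theorem CQe.idx (h : CQe Z M C) :
    Z.relIndex (M ⊔ C) = Z.relIndex M * Z.relIndex C := by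
  have h1 := Subgroup.card_mul_index h.mu.ker
  rw [Subgroup.index_ker, MonoidHom.range_eq_top.2 h.mu_surj, Subgroup.card_top, h.ker_card,
    Nat.card_prod] at h1
  have h2 := card_rel h.leM
  have h3 := card_rel h.leC
  have h4 := card_rel (A := Z) (B := M ⊔ C) (h.leM.trans le_sup_left)
  have hZ : 0 < Nat.card Z := Nat.card_pos
  apply Nat.eq_of_mul_eq_mul_left (Nat.mul_pos hZ hZ)
  rw [mul_assoc, h4, h1, ← h2, ← h3]
  ring

theorem cq_mul (h1 : T_ABL) (h : CQe Z M C) {ν φ ψ : Γ → ℂ} (hν : ν ∈ IrrS Z)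
    (hφ : φ ∈ Ab M ν) (hψ : ψ ∈ Ab C ν) {m c : Γ} (hm : m ∈ M) (hc : c ∈ C) :
    cp M C φ ψ (m * c) = φ m * ψ c := by
  have hex : ∃ p : Γ × Γ, p.1 ∈ M ∧ p.2 ∈ C ∧ p.1 * p.2 = m * c := ⟨(m, c), hm, hc, rfl⟩
  rw [cp, dif_pos hex]
  obtain ⟨e1, e2, e3⟩ := hex.choose_spec
  generalize hex.choose = p at e1 e2 e3
  obtain ⟨m', c'⟩ := p
  change φ m' * ψ c' = φ m * ψ c
  change m' ∈ M at e1
  change c' ∈ C at e2
  change m' * c' = m * c at e3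
  have hz : m⁻¹ * m' = c * c'⁻¹ := by
    rw [eq_mul_inv_iff_mul_eq, mul_assoc, e3]
    group
  have hzZ : m⁻¹ * m' ∈ Z := by
    rw [← h.inf]
    refine ⟨M.mul_mem (M.inv_mem hm) e1, ?_⟩
    rw [hz]
    exact C.mul_mem hc (C.inv_mem e2)
  have hm' : m' = m * (m⁻¹ * m') := by group
  have hc' : c' = c * (m⁻¹ * m')⁻¹ := by
    rw [← h.cenC _ (Z.inv_mem hzZ) c hc, hz]
    group
  have v1 := (central_val h1 h.leM h.cenM hν hφ).2 _ hzZ m hm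
  have v2 := (central_val h1 h.leC h.cenC hν hψ).2 _ (Z.inv_mem hzZ) c hc
  have hlin := h1 Γ Z (fun a ha b hb => h.cenM a ha b (h.leM hb)) ν hν
  have v3 : ν (m⁻¹ * m') * ν (m⁻¹ * m')⁻¹ = 1 := by
    rw [← hlin.2 _ hzZ _ (Z.inv_mem hzZ), mul_inv_cancel, hlin.1]
  rw [← hm'] at v1
  rw [← hc'] at v2
  rw [v1, v2]
  linear_combination φ m * ψ c * v3

/-- the product is irreducible -/
theorem cq_irr (h1 : T_ABL) (h : CQe Z M C) {ν φ ψ : Γ → ℂ} (hν : ν ∈ IrrS Z)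
    (hφ : φ ∈ Ab M ν) (hψ : ψ ∈ Ab C ν) : cp M C φ ψ ∈ IrrS (M ⊔ C) := by
  obtain ⟨-, -, ⟨d, hd, hd1⟩, -, charM, irrM⟩ := FI.Lib.lS1 Γ M φ hφ.1
  obtain ⟨-, -, ⟨d', hd', hd1'⟩, -, charC, irrC⟩ := FI.Lib.lS1 Γ C ψ hψ.1
  let π : M × C →* (M ⊔ C : Subgroup Γ) := MonoidHom.mk' (fun p => ⟨(p.1 : Γ) * (p.2 : Γ),
    (M ⊔ C).mul_mem (Subgroup.mem_sup_left p.1.2) (Subgroup.mem_sup_right p.2.2)⟩) (by
    rintro ⟨a, b⟩ ⟨a', b'⟩
    apply Subtype.ext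
    change ((a * a' : M) : Γ) * ((b * b' : C) : Γ) = (a : Γ) * b * ((a' : Γ) * b')
    rw [Subgroup.coe_mul, Subgroup.coe_mul, mul_assoc (a : Γ) a', ← mul_assoc (a' : Γ) b,
      h.com a' a'.2 b b.2]
    group)
  have hπ : Function.Surjective π := by
    rintro ⟨g, hg⟩
    obtain ⟨m, hm, c, hc, rfl⟩ := h.ex hg
    exact ⟨(⟨m, hm⟩, ⟨c, hc⟩), rfl⟩
  have hval : (fun p : M × C => (fun v : (M ⊔ C : Subgroup Γ) => cp M C φ ψ v) (π p)) =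
      fun p => φ p.1 * ψ p.2 := by
    funext p
    exact cq_mul h1 h hν hφ hψ p.1.2 p.2.2
  have hch : IsChar (M × C) (fun p : M × C => φ p.1 * ψ p.2) := by
    have a1 := FI.Lib.lA4.2.1 (M × C) M (MonoidHom.fst M C) _ charM
    have a2 := FI.Lib.lA4.2.1 (M × C) C (MonoidHom.snd M C) _ charC
    exact FI.Lib.lA4.1 (M × C) _ _ a1 a2
  have nM := FI.Lib.lA1 M _ _ irrM irrM
  have nC := FI.Lib.lA1 C _ _ irrC irrC
  rw [if_pos rfl] at nM nC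
  have hnorm : ∑ p : M × C, (φ p.1 * ψ p.2) * conj (φ p.1 * ψ p.2) =
      (Nat.card (M × C) : ℂ) := by
    rw [Fintype.sum_prod_type, Nat.card_prod, Nat.cast_mul, ← nM, ← nC, Finset.sum_mul_sum]
    apply Finset.sum_congr rfl
    intro m _
    apply Finset.sum_congr rfl
    intro c _
    rw [map_mul]
    ring
  have hirr : (fun p : M × C => φ p.1 * ψ p.2) ∈ Irr (M × C) :=
    (FI.Lib.lA3 (M × C)).2.2.2 _ hch hnorm
  have hX : (fun v : (M ⊔ C : Subgroup Γ) => cp M C φ ψ v) ∈ Irr (M ⊔ C : Subgroup Γ) := by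
    rw [(FI.Lib.lQI (M × C) (M ⊔ C : Subgroup Γ) π hπ).1, hval]
    exact hirr
  refine ⟨_, hX, ?_⟩
  funext g
  by_cases hg : g ∈ M ⊔ C
  · simp only [ext0, dif_pos hg]
  · simp only [ext0, dif_neg hg]
    exact (cq_supp hg).symm

/-- the product lies over `ν` -/
theorem cq_mem (h1 : T_ABL) (h : CQe Z M C) {ν φ ψ : Γ → ℂ} (hν : ν ∈ IrrS Z)
    (hφ : φ ∈ Ab M ν) (hψ : ψ ∈ Ab C ν) : cp M C φ ψ ∈ Ab (M ⊔ C) ν := by
  refine ⟨cq_irr h1 h hν hφ hψ, ?_⟩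
  have hνS := FI.Lib.lS1 Γ Z ν hν
  have hsum : ∑ g : Γ, cp M C φ ψ g * starRingEnd ℂ (ν g) =
      φ 1 * ψ 1 * ∑ g : Γ, ν g * starRingEnd ℂ (ν g) := by
    rw [Finset.mul_sum]
    apply Finset.sum_congr rfl
    intro g _
    by_cases hg : g ∈ Z
    · have e1 := cq_mul h1 h hν hφ hψ (h.leM hg) C.one_mem
      rw [mul_one] at e1
      rw [e1, (central_val h1 h.leM h.cenM hν hφ).1 g hg]
      ring
    · rw [hνS.1 g hg]
      simp
  have hνn := FI.Lib.lS2 Γ Z ν ν hν hν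
  rw [if_pos rfl] at hνn
  rw [Over, hsum, hνn]
  have hZ : (Nat.card Z : ℂ) ≠ 0 := by exact_mod_cast Nat.card_pos.ne'
  exact mul_ne_zero (mul_ne_zero (deg_ne hφ.1) (deg_ne hψ.1)) hZ

/-- the inner product of the product with a character of `M` -/
theorem cq_inner (h1 : T_ABL) (h : CQe Z M C) {ν φ ψ φ' : Γ → ℂ} (hν : ν ∈ IrrS Z)
    (hφ : φ ∈ Ab M ν) (hψ : ψ ∈ Ab C ν) (hφ' : φ' ∈ IrrS M) :
    ∑ g : Γ, cp M C φ ψ g * starRingEnd ℂ (φ' g) =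
      ψ 1 * ∑ g : Γ, φ g * starRingEnd ℂ (φ' g) := by
  have hs := FI.Lib.lS1 Γ M φ' hφ'
  rw [Finset.mul_sum]
  apply Finset.sum_congr rfl
  intro g _
  by_cases hg : g ∈ M
  · have e1 := cq_mul h1 h hν hφ hψ hg C.one_mem
    rw [mul_one] at e1
    rw [e1]
    ring
  · rw [hs.1 g hg]
    simp

theorem cq_inj (h1 : T_ABL) (h : CQe Z M C) {ν φ ψ φ' ψ' : Γ → ℂ} (hν : ν ∈ IrrS Z)
    (hφ : φ ∈ Ab M ν) (hψ : ψ ∈ Ab C ν) (hφ' : φ' ∈ Ab M ν) (hψ' : ψ' ∈ Ab C ν)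
    (he : cp M C φ ψ = cp M C φ' ψ') : φ = φ' ∧ ψ = ψ' := by
  have hv : ∀ m ∈ M, ∀ c ∈ C, φ m * ψ c = φ' m * ψ' c := by
    intro m hm c hc
    rw [← cq_mul h1 h hν hφ hψ hm hc, ← cq_mul h1 h hν hφ' hψ' hm hc, he]
  have hd0 : φ 1 ≠ 0 := deg_ne hφ.1
  have he0 : ψ 1 ≠ 0 := deg_ne hψ.1
  have v11 := hv 1 M.one_mem 1 C.one_mem
  constructor
  · apply eq_of_prop hφ.1 hφ'.1
    intro g hg
    have v := hv g hg 1 C.one_mem
    have : (φ g * φ' 1) * ψ 1 = (φ' g * φ 1) * ψ 1 := by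
      linear_combination φ' 1 * v - φ' g * v11
    exact mul_right_cancel₀ he0 this
  · apply eq_of_prop hψ.1 hψ'.1
    intro g hg
    have v := hv 1 M.one_mem g hg
    have : (ψ g * ψ' 1) * φ 1 = (ψ' g * ψ 1) * φ 1 := by
      linear_combination ψ' 1 * v - ψ' g * v11
    exact mul_right_cancel₀ hd0 this

/-- all characters over `ν` are products -/
theorem cq_surj (h1 : T_ABL) (h2 : T_SSQ) (h : CQe Z M C) {ν : Γ → ℂ} (hν : ν ∈ IrrS Z)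
    {ξ : Γ → ℂ} (hξ : ξ ∈ Ab (M ⊔ C) ν) :
    ∃ φ ∈ Ab M ν, ∃ ψ ∈ Ab C ν, ξ = cp M C φ ψ := by
  have fT := Ab_finite (M ⊔ C) ν
  have fM := Ab_finite M ν
  have fC := Ab_finite C ν
  have hT := h2 Γ Z (M ⊔ C) (h.leM.trans le_sup_left) h.cen ν hν
  have hM := h2 Γ Z M h.leM h.cenM ν hν
  have hC := h2 Γ Z C h.leC h.cenC ν hν
  rw [finsum_mem_eq_finite_toFinset_sum _ fT] at hT
  rw [finsum_mem_eq_finite_toFinset_sum _ fM] at hM
  rw [finsum_mem_eq_finite_toFinset_sum _ fC] at hC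
  have mT : ∀ χ, χ ∈ fT.toFinset ↔ χ ∈ Ab (M ⊔ C) ν := fun χ => fT.mem_toFinset
  have mM : ∀ χ, χ ∈ fM.toFinset ↔ χ ∈ Ab M ν := fun χ => fM.mem_toFinset
  have mC : ∀ χ, χ ∈ fC.toFinset ↔ χ ∈ Ab C ν := fun χ => fC.mem_toFinset
  let F : (Γ → ℂ) × (Γ → ℂ) → (Γ → ℂ) := fun p => cp M C p.1 p.2
  have hF1 : ∀ p ∈ fM.toFinset ×ˢ fC.toFinset, F p 1 = p.1 1 * p.2 1 := by
    intro p hp
    rw [Finset.mem_product, mM, mC] at hp
    have := cq_mul h1 h hν hp.1 hp.2 M.one_mem C.one_mem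
    rw [mul_one] at this
    exact this
  have hinj : Set.InjOn F (fM.toFinset ×ˢ fC.toFinset : Finset _) := by
    intro p hp q hq he
    rw [Finset.mem_coe, Finset.mem_product, mM, mC] at hp hq
    obtain ⟨e1, e2⟩ := cq_inj h1 h hν hp.1 hp.2 hq.1 hq.2 he
    exact Prod.ext e1 e2
  have hsub : (fM.toFinset ×ˢ fC.toFinset).image F ⊆ fT.toFinset := by
    intro χ hχ
    obtain ⟨p, hp, rfl⟩ := Finset.mem_image.1 hχ
    rw [Finset.mem_product, mM, mC] at hp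
    rw [mT]
    exact cq_mem h1 h hν hp.1 hp.2
  have hsq : ∑ χ ∈ (fM.toFinset ×ˢ fC.toFinset).image F, χ 1 * χ 1 =
      ∑ χ ∈ fT.toFinset, χ 1 * χ 1 := by
    rw [Finset.sum_image hinj, hT, h.idx, Nat.cast_mul, ← hM, ← hC, Finset.sum_mul_sum,
      Finset.sum_product]
    apply Finset.sum_congr rfl
    intro φ hφ
    apply Finset.sum_congr rfl
    intro ψ hψ
    rw [hF1 (φ, ψ) (Finset.mem_product.2 ⟨hφ, hψ⟩)]
    ring
  have hdeg : ∀ χ ∈ fT.toFinset, 0 < (χ 1 * χ 1).re := by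
    intro χ hχ
    obtain ⟨d, hd, hd1⟩ := (FI.Lib.lS1 Γ (M ⊔ C) χ ((mT χ).1 hχ).1).2.2.1
    rw [hd1, ← Nat.cast_mul, Complex.natCast_re]
    exact_mod_cast Nat.mul_pos hd hd
  have himg : (fM.toFinset ×ˢ fC.toFinset).image F = fT.toFinset := by
    by_contra hne
    have hss : (fM.toFinset ×ˢ fC.toFinset).image F ⊂ fT.toFinset := hsub.ssubset_of_ne hne
    obtain ⟨χ, hχ, hχ'⟩ := Finset.exists_of_ssubset hss
    have h3 := congrArg Complex.re hsq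
    rw [Complex.re_sum, Complex.re_sum] at h3
    have h4 : ∑ χ ∈ (fM.toFinset ×ˢ fC.toFinset).image F, (χ 1 * χ 1).re <
        ∑ χ ∈ fT.toFinset, (χ 1 * χ 1).re :=
      Finset.sum_lt_sum_of_subset hsub hχ hχ' (hdeg χ hχ) (fun χ hχ _ => (hdeg χ hχ).le)
    exact h4.ne h3
  have hmem : ξ ∈ (fM.toFinset ×ˢ fC.toFinset).image F := by
    rw [himg, mT]
    exact hξ
  obtain ⟨p, hp, hpe⟩ := Finset.mem_image.1 hmem
  rw [Finset.mem_product, mM, mC] at hp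
  exact ⟨p.1, hp.1, p.2, hp.2, hpe.symm⟩

end

theorem pf_CP2 (ABL : T_ABL) (SSQ : T_SSQ) : T_CP2 := by
  intro Γ _ _ Z M C hinf hcom ν hν
  have h : CQe Z M C := ⟨hinf, hcom⟩
  refine ⟨fun φ hφ ψ hψ => ⟨cp M C φ ψ, cq_mem ABL h hν hφ hψ,
    fun m hm c hc => cq_mul ABL h hν hφ hψ hm hc⟩, ?_, ?_⟩
  · intro χ hχ
    obtain ⟨φ, hφ, ψ, hψ, rfl⟩ := cq_surj ABL SSQ h hν hχ
    exact ⟨φ, hφ, ψ, hψ, fun m hm c hc => cq_mul ABL h hν hφ hψ hm hc⟩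
  · intro φ hφ φ' hφ' ψ hψ ψ' hψ' hv
    have hd0 : φ 1 ≠ 0 := deg_ne hφ.1
    have he0 : ψ 1 ≠ 0 := deg_ne hψ.1
    have v11 := hv 1 M.one_mem 1 C.one_mem
    constructor
    · apply eq_of_prop hφ.1 hφ'.1
      intro g hg
      have v := hv g hg 1 C.one_mem
      have : (φ g * φ' 1) * ψ 1 = (φ' g * φ 1) * ψ 1 := by
        linear_combination φ' 1 * v - φ' g * v11
      exact mul_right_cancel₀ he0 this
    · apply eq_of_prop hψ.1 hψ'.1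
      intro g hg
      have v := hv 1 M.one_mem g hg
      have : (ψ g * ψ' 1) * φ 1 = (ψ' g * ψ 1) * φ 1 := by
        linear_combination ψ' 1 * v - ψ' g * v11
      exact mul_right_cancel₀ hd0 this

end Pool.Agent.H36.FC
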