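import Pool.Agent.H6.FC.Targets

/-!
# MP_7500ea_al, board cfp_modules: ONE (the conditions for simple chief factors)
-/

set_option autoImplicit false

open scoped Classical ComplexConjugate

namespace Pool.Agent.H36.FC

open FI AMc AMt

theorem pf_ONE (SPB : T_SPB) (PAM : T_PAM) (PA5 : T_PA5) (CHQ : T_CHQ) (Q2A : T_Q2A)
    (ALQ : T_ALQ) (AL5 : T_AL5) (CH5 : T_CH5) (CHM : T_CHM) (NE : T_NE) : T_ONE := by
  intro e he p S _ hp
  obtain ⟨hfin, hnas, hp5, hcS, hcA, hidx⟩ := SPB p S hp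
  have he1 : (91 / 25 : ℝ) ≤ e := NE.1.trans he
  have he0 : 0 < e := by linarith
  have hpR : (1 : ℝ) ≤ p := by exact_mod_cast (by omega : 1 ≤ p)
  refine ⟨hnas.sim, hnas.nab, ?_, ?_⟩
  · intro T hT
    have h1 : (Nat.card (MulAut S) : ℝ) ≤ (p : ℝ) ^ (3 : ℝ) := by
      have h2 : Nat.card (MulAut S) ≤ p ^ 3 := by
        refine hcA.trans ?_
        rw [pow_succ, pow_two, mul_comm (p * p) p]
        exact Nat.mul_le_mul_left _ (Nat.sub_le _ _)
      have h3 : ((p : ℝ) ^ (3 : ℝ)) = ((p ^ 3 : ℕ) : ℝ) := by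
        rw [Nat.cast_pow, ← Real.rpow_natCast]
        norm_num
      rw [h3]
      exact_mod_cast h2
    calc (Nat.card (MulAut S) : ℝ) ^ (1 / e) ≤ ((p : ℝ) ^ (3 : ℝ)) ^ (1 / e) :=
          Real.rpow_le_rpow (Nat.cast_nonneg _) h1 (by positivity)
      _ = (p : ℝ) ^ (3 * (1 / e)) := by rw [← Real.rpow_mul (by linarith)]
      _ ≤ (p : ℝ) ^ (1 : ℝ) := by
          apply Real.rpow_le_rpow_of_exponent_le hpR
          rw [mul_one_div, div_le_one he0]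
          linarith
      _ = p := Real.rpow_one _
      _ ≤ T.index := by exact_mod_cast hidx T hT
  · intro A _ _ S' hn hc hS'
    obtain ⟨i⟩ := hS'
    rcases hp with ⟨hp, ⟨j⟩⟩ | ⟨hpp, hp7, ⟨j⟩⟩
    · obtain ⟨f, hf, hr, rfl⟩ := PA5 A S' hn hc ⟨i.trans j⟩
      exact ⟨(AL5 A f hf hr).idx, CHM e0 e (by linarith [NE.1]) he A _ (CH5 A f hf hr)⟩
    · obtain ⟨f, hf, hr, rfl⟩ := PAM p hpp hp7 A S' hn hc ⟨i.trans j⟩
      obtain ⟨U, B, hUB⟩ := Q2A p A f hpp hp7 hf hr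
      exact ⟨(ALQ p A f hpp hp7 hf hr).idx, CHQ p A _ U B hUB e he1⟩

end Pool.Agent.H36.FC
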