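import Pool.Agent.H6.FC.Targets

/-!
# MP_7500ea_al, board cfp_modules: S1C (the case that `L` is not contained in `h(Γ)`)
-/

set_option autoImplicit false

open scoped Classical ComplexConjugate

namespace Pool.Agent.H36.FC

open FI AMc AMt

theorem card_rel' {G : Type} [Group G] {A B : Subgroup G} (h : A ≤ B) :
    Nat.card A * A.relIndex B = Nat.card B := by
  rw [← Subgroup.relIndex_bot_left A, ← Subgroup.relIndex_bot_left B]
  exact Subgroup.relIndex_mul_relIndex ⊥ A B bot_le h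

/-- `|L H : H| = |L : L ∩ H|` for a normal subgroup `L` -/
theorem rel_sup {G : Type} [Group G] [Finite G] (L H : Subgroup G) [L.Normal] :
    H.relIndex (L ⊔ H) = H.relIndex L := by
  have a1 := card_rel' (A := L) (B := L ⊔ H) le_sup_left
  have a2 := card_rel' (A := H) (B := L ⊔ H) le_sup_right
  have a3 := card_rel' (A := L ⊓ H) (B := H) inf_le_right
  have a4 := card_rel' (A := L ⊓ H) (B := L) inf_le_left
  have b1 : L.relIndex (L ⊔ H) = L.relIndex H := by
    rw [sup_comm, Subgroup.relIndex_sup_right]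
  rw [b1] at a1
  rw [Subgroup.inf_relIndex_right] at a3
  rw [Subgroup.inf_relIndex_left] at a4
  have h0 : 0 < Nat.card (L ⊓ H : Subgroup G) := Nat.card_pos
  have h1 : 0 < L.relIndex H := Nat.pos_of_ne_zero fun h => by
    rw [h, mul_zero] at a3
    exact Nat.card_pos.ne a3
  apply Nat.eq_of_mul_eq_mul_left (Nat.mul_pos h0 h1)
  calc Nat.card (L ⊓ H : Subgroup G) * L.relIndex H * H.relIndex (L ⊔ H)
      = Nat.card (L ⊔ H : Subgroup G) := by rw [a3, a2]
    _ = Nat.card (L ⊓ H : Subgroup G) * H.relIndex L * L.relIndex H := by rw [← a1, a4]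
    _ = _ := by ring

theorem pf_S1C (DLB : T_DLB) (SBD : T_SBD) (ABL : T_ABL) (_KKP : T_KKP) : T_S1C := by
  intro e he Y S _ _ _ _ hsol L _ hOne hLS hCA Γ _ _ Z h hZ hL ν hν
  obtain ⟨iso⟩ := hLS
  have he0 : 0 < e := by linarith
  have hZn : Z.Normal := ⟨fun z hz g => by
    rw [← hZ.cen z hz g, mul_assoc, mul_inv_cancel, mul_one]
    exact hz⟩
  have h1 := DLB e Y L hCA Γ h Z hZn (fun n hn => by
    rw [(hZ.ker n).2 hn]
    exact L.one_mem) ν hν
  have hν1 : ν 1 = 1 := (ABL Γ Z (fun a ha b _ => hZ.cen a ha b) ν hν).1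
  rw [hν1, Complex.one_re, mul_one] at h1
  have h2 := SBD Y hsol L S ⟨hOne.sim, hOne.nab⟩ 1 le_rfl
    ⟨iso.trans (MulEquiv.funUnique (Fin 1) S).symm⟩
  rw [Nat.sub_self, pow_zero, one_mul, pow_one] at h2
  set D : Subgroup S := (h.range.subgroupOf L).map (iso : L →* S) with hD
  have hDi : D.index = h.range.relIndex L := Subgroup.index_map_equiv _ iso
  have hDt : D ≠ ⊤ := by
    intro hc
    apply hL
    rw [← Subgroup.relIndex_eq_one, ← hDi, hc, Subgroup.index_top]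
  have h3 := hOne.idx D hDt
  rw [hDi] at h3
  have h4 : h.range.index = (L ⊔ h.range).index * h.range.relIndex L := by
    rw [← rel_sup, mul_comm]
    exact (Subgroup.relIndex_mul_index le_sup_right).symm
  set A : ℝ := ((sol (Y ⧸ L)).index : ℝ) ^ (1 / e) with hA
  have hA0 : 0 ≤ A := Real.rpow_nonneg (Nat.cast_nonneg _) _
  have h5 : (Nat.card Y : ℝ) ^ (1 / e) ≤ (Nat.card (MulAut S) : ℝ) ^ (1 / e) * A := by
    rw [hA, ← Real.mul_rpow (Nat.cast_nonneg _) (Nat.cast_nonneg _)]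
    exact Real.rpow_le_rpow (Nat.cast_nonneg _) h2 (by positivity)
  have hk0 : (0 : ℝ) ≤ (kk ⊤ ν : ℝ) := Nat.cast_nonneg _
  rw [h4, Nat.cast_mul]
  calc (Nat.card Y : ℝ) ^ (1 / e) * (kk ⊤ ν : ℝ)
      ≤ ((Nat.card (MulAut S) : ℝ) ^ (1 / e) * A) * (kk ⊤ ν : ℝ) :=
        mul_le_mul_of_nonneg_right h5 hk0
    _ = (Nat.card (MulAut S) : ℝ) ^ (1 / e) * (A * (kk ⊤ ν : ℝ)) := by ring
    _ ≤ (h.range.relIndex L : ℝ) * (A * (kk ⊤ ν : ℝ)) :=
        mul_le_mul_of_nonneg_right h3 (mul_nonneg hA0 hk0)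
    _ ≤ (h.range.relIndex L : ℝ) * (((L ⊔ h.range).index : ℝ) * dd ⊤ ν) :=
        mul_le_mul_of_nonneg_left h1 (Nat.cast_nonneg _)
    _ = _ := by ring

end Pool.Agent.H36.FC
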