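import Pool.Agent.H6.FC.Targets
import Pool.Agent.H63.FI.GIS
import Pool.Agent.H94.FI.LCH

/-!
# MP_7500ea_al, board cfp_modules: UNQ (uniqueness of `μ` and `ε`) and EX0
-/

set_option autoImplicit false

open scoped Classical ComplexConjugate

namespace Pool.Agent.H36.FC

open FI AMc AMt

/-- characters of degree one are multiplicative -/
theorem lin_mul {Γ : Type} [Group Γ] [Fintype Γ] {M : Subgroup Γ} {ψ : Γ → ℂ}
    (hψ : ψ ∈ IrrS M) (h1 : ψ 1 = 1) : ∀ x ∈ M, ∀ y ∈ M, ψ (x * y) = ψ x * ψ y := by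
  obtain ⟨p, ⟨n, ρ, hρ, hp⟩, hpψ⟩ := hψ
  have hval : ∀ (g : Γ) (hg : g ∈ M), ψ g = ρ.character ⟨g, hg⟩ := by
    intro g hg
    rw [← hpψ, hp, ext0]
    exact dif_pos hg
  have hn : n = 1 := by
    have h2 := hval 1 M.one_mem
    rw [h1] at h2
    have h3 : ρ.character (1 : M) = n := by
      rw [Representation.char_one, Module.finrank_fin_fun]
    have h4 : (⟨1, M.one_mem⟩ : M) = 1 := rfl
    rw [h4, h3] at h2
    exact_mod_cast h2.symm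
  subst hn
  intro x hx y hy
  rw [hval x hx, hval y hy, hval (x * y) (M.mul_mem hx hy)]
  have h2 : ρ ⟨x * y, M.mul_mem hx hy⟩ = ρ ⟨x, hx⟩ * ρ ⟨y, hy⟩ := map_mul ρ ⟨x, hx⟩ ⟨y, hy⟩
  have h5 := Pool.Agent.H63.FI.lin1 (ρ ⟨x, hx⟩)
  change LinearMap.trace ℂ (Fin 1 → ℂ) (ρ ⟨x * y, M.mul_mem hx hy⟩) =
    LinearMap.trace ℂ (Fin 1 → ℂ) (ρ ⟨x, hx⟩) * LinearMap.trace ℂ (Fin 1 → ℂ) (ρ ⟨y, hy⟩)
  rw [h2]
  conv_lhs => rw [h5]
  rw [smul_mul_assoc, map_smul, smul_eq_mul]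
  rfl

theorem pf_UNQ : T_UNQ := by
  intro Γ S _ _ _ _ Z M p hZM hprf hpZ hpm hps μ hμ μ' hμ' h1 h1' ε hε ε' hε' hv
  have : Fintype S := Fintype.ofFinite S
  obtain ⟨d, hd, hd1⟩ := ((FI.Lib.lA3 S).1 ε hε).2
  have hε1 : ε 1 ≠ 0 := by
    rw [hd1]
    exact_mod_cast hd.ne'
  have hp1 : p 1 = 1 := hpZ 1 Z.one_mem
  have he : ε 1 = ε' 1 := by
    have := hv 1 M.one_mem
    rwa [h1, h1', one_mul, one_mul, hp1] at this
  have m1 := lin_mul hμ h1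
  have m2 := lin_mul hμ' h1'
  have i1 : ∀ x ∈ M, μ x * μ x⁻¹ = 1 := fun x hx => by
    rw [← m1 x hx x⁻¹ (M.inv_mem hx), mul_inv_cancel, h1]
  have i2 : ∀ x ∈ M, μ' x * μ' x⁻¹ = 1 := fun x hx => by
    rw [← m2 x hx x⁻¹ (M.inv_mem hx), mul_inv_cancel, h1']
  have n1 : ∀ x ∈ M, μ x ≠ 0 := fun x hx h => by
    have := i1 x hx
    rw [h, zero_mul] at this
    exact zero_ne_one this
  let E : Subgroup Γ :=
    { carrier := {x | x ∈ M ∧ μ x = μ' x}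
      mul_mem' := by
        rintro a b ⟨ha, ha'⟩ ⟨hb, hb'⟩
        exact ⟨M.mul_mem ha hb, by rw [m1 a ha b hb, m2 a ha b hb, ha', hb']⟩
      one_mem' := ⟨M.one_mem, by rw [h1, h1']⟩
      inv_mem' := by
        rintro a ⟨ha, ha'⟩
        refine ⟨M.inv_mem ha, ?_⟩
        apply mul_left_cancel₀ (n1 a ha)
        rw [i1 a ha, ha', i2 a ha] }
  have hZE : Z ≤ E := by
    intro z hz
    refine ⟨hZM hz, ?_⟩
    have := hv z (hZM hz)
    rw [hpZ z hz, ← he] at this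
    exact mul_right_cancel₀ hε1 this
  have hcE : ⁅M, M⁆ ≤ E := by
    rw [Subgroup.commutator_le]
    intro a ha b hb
    have hai := M.inv_mem ha
    have hbi := M.inv_mem hb
    have hab := M.mul_mem ha hb
    have habi := M.mul_mem hab hai
    refine ⟨M.mul_mem habi hbi, ?_⟩
    rw [commutatorElement_def, m1 _ habi _ hbi, m1 _ hab _ hai, m1 _ ha _ hb, m2 _ habi _ hbi,
      m2 _ hab _ hai, m2 _ ha _ hb]
    have e1 : μ a * μ b * μ a⁻¹ * μ b⁻¹ = 1 := by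
      linear_combination μ b * μ b⁻¹ * i1 a ha + i1 b hb
    have e2 : μ' a * μ' b * μ' a⁻¹ * μ' b⁻¹ = 1 := by
      linear_combination μ' b * μ' b⁻¹ * i2 a ha + i2 b hb
    rw [e1, e2]
  have hME : M ≤ E := hprf.trans (sup_le hZE hcE)
  have hμμ : μ = μ' := by
    funext g
    by_cases hg : g ∈ M
    · exact (hME hg).2
    · rw [(FI.Lib.lS1 Γ M μ hμ).1 g hg, (FI.Lib.lS1 Γ M μ' hμ').1 g hg]
  refine ⟨hμμ, ?_⟩
  funext s
  obtain ⟨x, hx, rfl⟩ := hps s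
  have := hv x hx
  rw [← hμμ] at this
  exact mul_left_cancel₀ (n1 x hx) this

theorem pf_EX0 : T_EX0 := by
  intro S _ _ hS
  have : Fintype S := Fintype.ofFinite S
  have : Fintype (MulAut S) := Fintype.ofFinite (MulAut S)
  constructor
  · rintro ε ⟨hε, χ, hχ, hχε⟩ α s
    have hcl := ((FI.Lib.lA3 (MulAut S)).2.1 χ ((FI.Lib.lA3 (MulAut S)).1 χ hχ).1).1
    have h1 : MulAut.conj (α s) = α * MulAut.conj s * α⁻¹ := by
      ext t
      simp [MulAut.conj_apply]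
    rw [← hχε, ← hχε, h1, hcl]
  · refine ⟨?_, fun _ => 1, ?_, fun _ => rfl⟩
    · exact Pool.Agent.H94.FI.pf_LCH S 1
    · exact Pool.Agent.H94.FI.pf_LCH (MulAut S) 1

end Pool.Agent.H36.FC
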